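import Mathlib
import Pool.Agent.Helper18.PB.Defs

/-!
# MP_b9cb57_an, packet E1: the quadratic gap (helper59)
-/

set_option autoImplicit false

namespace Pool.Agent.Helper59.PB

open Pool.Agent.Helper18.PB

universe v

/-- optimisation of `t L - B t²` over small `t` -/
theorem quad {L B t1 m L0 : ℝ} (hB : 0 < B) (ht1 : 0 < t1) (hL : |L| ≤ L0)
    (h : ∀ t : ℝ, |t| ≤ t1 → t * L - B * t ^ 2 ≤ m) :
    min (1 / (2 * B)) (t1 / (L0 + 1)) / 2 * L ^ 2 ≤ m := by
  have hL0 : 0 ≤ L0 := (abs_nonneg L).trans hL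
  set ε := min (1 / (2 * B)) (t1 / (L0 + 1)) with hε
  have hε0 : 0 < ε := by
    refine lt_min (by positivity) (by positivity)
  have hε1 : ε ≤ 1 / (2 * B) := min_le_left _ _
  have hε2 : ε ≤ t1 / (L0 + 1) := min_le_right _ _
  have h1 : |ε * L| ≤ t1 := by
    rw [abs_mul, abs_of_pos hε0]
    calc ε * |L| ≤ t1 / (L0 + 1) * (L0 + 1) :=
          mul_le_mul hε2 (hL.trans (by linarith)) (abs_nonneg _) (by positivity)
      _ = t1 := by field_simp
  have h2 := h (ε * L) h1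
  have h3 : B * ε ≤ 1 / 2 := by
    calc B * ε ≤ B * (1 / (2 * B)) := mul_le_mul_of_nonneg_left hε1 hB.le
      _ = 1 / 2 := by field_simp
  have h4 : 0 ≤ ε * L ^ 2 := by positivity
  have h5 : ε * L * L - B * (ε * L) ^ 2 = ε * L ^ 2 - (B * ε) * (ε * L ^ 2) := by ring
  rw [h5] at h2
  have h6 : (B * ε) * (ε * L ^ 2) ≤ 1 / 2 * (ε * L ^ 2) := mul_le_mul_of_nonneg_right h3 h4
  linarith

theorem e1 : GGap.{v} := by
  intro Y _ _ _ d τ C A K r v z hC hA hK hr hKr hv hDv hz hz0 hJ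
  set Dv : Y →L[ℝ] Y := τ.symm v with hDvdef
  set A1 : Y →L[ℝ] Y := A.comp (ContinuousLinearMap.id ℝ Y + Dv) with hA1def
  have hA1 : ∀ w, A1 w = A (w + Dv w) := by
    intro w; rw [hA1def]; simp
  -- lower bounds
  have hlow : ∀ w : Y, ‖w‖ / 2 ≤ ‖A w‖ := by
    intro w
    have h1 : ‖(A - ContinuousLinearMap.id ℝ Y) w‖ ≤ 1 / 2 * ‖w‖ :=
      ContinuousLinearMap.le_of_opNorm_le _ hA w
    have h2 : w = A w - (A - ContinuousLinearMap.id ℝ Y) w := by simp
    have h3 : ‖w‖ ≤ ‖A w‖ + ‖(A - ContinuousLinearMap.id ℝ Y) w‖ := by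
      conv_lhs => rw [h2]
      exact norm_sub_le _ _
    linarith
  have hlow2 : ∀ w : Y, ‖w‖ / 2 ≤ ‖w + Dv w‖ := by
    intro w
    have h1 : ‖Dv w‖ ≤ 1 / 2 * ‖w‖ := ContinuousLinearMap.le_of_opNorm_le _ hDv w
    have h2 : ‖w‖ ≤ ‖w + Dv w‖ + ‖Dv w‖ := by
      have : w = (w + Dv w) - Dv w := by simp
      conv_lhs => rw [this]
      exact norm_sub_le _ _
    linarith
  set M : ℝ := ‖A1 z‖ with hMdef
  have hM : 0 < M := by
    have h1 := hlow (z + Dv z)
    have h2 := hlow2 z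
    rw [← hA1 z] at h1
    have h3 : 0 < ‖z‖ := norm_pos_iff.2 hz0
    linarith
  set k0 : ℝ := 1 - K * ‖v‖ ^ 2 with hk0
  have hv2 : ‖v‖ ^ 2 ≤ r ^ 2 := pow_le_pow_left₀ (norm_nonneg _) hv.le 2
  have hk0a : 1 / 2 ≤ k0 := by
    have := mul_le_mul_of_nonneg_left hv2 hK.le
    rw [hk0]; linarith
  have hk0b : k0 ≤ 1 := by
    have : 0 ≤ K * ‖v‖ ^ 2 := by positivity
    rw [hk0]; linarith
  obtain ⟨R, hR0, hR⟩ := hC.exists_pos_norm_le
  set c : ℝ := ‖(τ : (Y →L[ℝ] Y) →L[ℝ] EuclideanSpace ℝ (Fin d))‖ with hc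
  have hc0 : 0 ≤ c := by rw [hc]; exact norm_nonneg (τ : (Y →L[ℝ] Y) →L[ℝ] EuclideanSpace ℝ (Fin d))
  have hτ : ∀ D : Y →L[ℝ] Y, ‖D‖ ≤ 1 → ‖τ D‖ ≤ c := by
    intro D hD
    have h1 := (τ : (Y →L[ℝ] Y) →L[ℝ] EuclideanSpace ℝ (Fin d)).le_opNorm D
    have h2 : ‖(τ : (Y →L[ℝ] Y) →L[ℝ] EuclideanSpace ℝ (Fin d)) D‖ = ‖τ D‖ := rfl
    rw [h2] at h1
    calc ‖τ D‖ ≤ c * ‖D‖ := h1
      _ ≤ c * 1 := mul_le_mul_of_nonneg_left hD hc0
      _ = c := mul_one c
  -- N' ≤ M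
  have hN : ∀ z' ∈ C, ‖A1 z'‖ ≤ M := by
    intro z' hz'
    have h := hJ v hv.le z' hz'
    rw [← hA1 z', ← hA1 z] at h
    exact le_of_mul_le_mul_left h (by linarith)
  set La : ℝ := ‖A‖ * R with hLa
  have hLa0 : 0 ≤ La := by positivity
  have hAD : ∀ z' ∈ C, ∀ e' : Y →L[ℝ] ℝ, ‖e'‖ ≤ 1 → ∀ D : Y →L[ℝ] Y, ‖D‖ ≤ 1 →
      |e' (A (D z'))| ≤ La := by
    intro z' hz' e' he' D hD
    have h1 : |e' (A (D z'))| ≤ 1 * ‖A (D z')‖ := by
      rw [← Real.norm_eq_abs]; exact e'.le_of_opNorm_le he' _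
    have h2 : ‖A (D z')‖ ≤ ‖A‖ * ‖D z'‖ := A.le_opNorm _
    have h3 : ‖D z'‖ ≤ 1 * ‖z'‖ := D.le_of_opNorm_le hD _
    have h4 : ‖D z'‖ ≤ R := by linarith [hR z' hz']
    have h5 : ‖A‖ * ‖D z'‖ ≤ ‖A‖ * R := mul_le_mul_of_nonneg_left h4 (norm_nonneg _)
    linarith
  set t1 : ℝ := min 1 ((r - ‖v‖) / (c + 1)) with ht1
  have ht10 : 0 < t1 := lt_min one_pos (div_pos (by linarith) (by linarith))
  have ht1a : t1 ≤ 1 := min_le_left _ _
  have ht1b : t1 * c ≤ r - ‖v‖ := by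
    have h1 : t1 ≤ (r - ‖v‖) / (c + 1) := min_le_right _ _
    calc t1 * c ≤ (r - ‖v‖) / (c + 1) * (c + 1) :=
          mul_le_mul h1 (by linarith) hc0 (div_nonneg (by linarith) (by linarith))
      _ = r - ‖v‖ := by field_simp
  set B1 : ℝ := 2 * K * (r * c * La) + K * (c ^ 2 * M) + K * (c ^ 2 * La) + 1 with hB1
  have hB10 : 0 < B1 := by
    have h1 : 0 ≤ 2 * K * (r * c * La) := by positivity
    have h2 : 0 ≤ K * (c ^ 2 * M) := by positivity
    have h3 : 0 ≤ K * (c ^ 2 * La) := by positivity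
    linarith
  -- the main inequality
  have core : ∀ z' ∈ C, ∀ e' : Y →L[ℝ] ℝ, ‖e'‖ ≤ 1 → e' (A1 z') = ‖A1 z'‖ →
      ∀ D : Y →L[ℝ] Y, ‖D‖ ≤ 1 → ∀ t : ℝ, |t| ≤ t1 →
      t * (k0 * e' (A (D z')) - 2 * K * inner ℝ v (τ D) * ‖A1 z'‖) - B1 * t ^ 2
        ≤ k0 * (M - ‖A1 z'‖) := by
    intro z' hz' e' he' he'2 D hD t ht
    have hτD := hτ D hD
    have hv' : ‖v + t • τ D‖ ≤ r := by
      have h1 : ‖v + t • τ D‖ ≤ ‖v‖ + |t| * ‖τ D‖ := by
        refine (norm_add_le _ _).trans ?_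
        rw [norm_smul, Real.norm_eq_abs]
      have h2 : |t| * ‖τ D‖ ≤ t1 * c := mul_le_mul ht hτD (norm_nonneg _) ht10.le
      linarith
    have h := hJ (v + t • τ D) hv' z' hz'
    have hD' : τ.symm (v + t • τ D) = Dv + t • D := by
      rw [map_add, map_smul, τ.symm_apply_apply]
    have hval : A (z' + τ.symm (v + t • τ D) z') = A1 z' + t • A (D z') := by
      rw [hD', hA1 z', ← map_smul, ← map_add]
      congr 1
      change z' + (Dv z' + t • D z') = z' + Dv z' + t • D z'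
      abel
    rw [hval, ← hA1 z] at h
    have h1 : ‖A1 z'‖ + t * e' (A (D z')) ≤ ‖A1 z' + t • A (D z')‖ := by
      have h2 : e' (A1 z' + t • A (D z')) = ‖A1 z'‖ + t * e' (A (D z')) := by
        rw [map_add, map_smul, he'2, smul_eq_mul]
      rw [← h2]
      have h3 := e'.le_of_opNorm_le he' (A1 z' + t • A (D z'))
      rw [one_mul] at h3
      exact (le_abs_self _).trans ((Real.norm_eq_abs _).symm.le.trans h3)
    set P : ℝ := 1 - K * ‖v + t • τ D‖ ^ 2 with hP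
    have hP0 : 0 ≤ P := by
      have h3 : ‖v + t • τ D‖ ^ 2 ≤ r ^ 2 := pow_le_pow_left₀ (norm_nonneg _) hv' 2
      have h4 := mul_le_mul_of_nonneg_left h3 hK.le
      rw [hP]; linarith
    have h2 : P * (‖A1 z'‖ + t * e' (A (D z'))) ≤ k0 * M :=
      (mul_le_mul_of_nonneg_left h1 hP0).trans h
    set s : ℝ := inner ℝ v (τ D) with hs
    have hPe : P = k0 - 2 * K * t * s - K * t ^ 2 * ‖τ D‖ ^ 2 := by
      rw [hP, norm_add_sq_real, norm_smul, Real.norm_eq_abs, inner_smul_right, mul_pow, sq_abs,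
        ← hs, hk0]
      ring
    have hs1 : |s| ≤ r * c := by
      refine (abs_real_inner_le_norm v (τ D)).trans ?_
      exact mul_le_mul hv.le hτD (norm_nonneg _) hr.le
    have ha := hAD z' hz' e' he' D hD
    set a' : ℝ := e' (A (D z')) with ha'
    set N' : ℝ := ‖A1 z'‖ with hN'
    have hN'0 : 0 ≤ N' := norm_nonneg _
    have hN'M : N' ≤ M := hN z' hz'
    set q : ℝ := ‖τ D‖ ^ 2 with hq
    have hq0 : 0 ≤ q := by positivity
    have hqc : q ≤ c ^ 2 := pow_le_pow_left₀ (norm_nonneg _) hτD 2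
    have w1 : s * a' ≤ r * c * La := by
      refine (le_abs_self _).trans ?_
      rw [abs_mul]
      exact mul_le_mul hs1 ha (abs_nonneg _) (by positivity)
    have w2 : q * N' ≤ c ^ 2 * M := mul_le_mul hqc hN'M hN'0 (by positivity)
    have w3 : t * q * a' ≤ c ^ 2 * La := by
      refine (le_abs_self _).trans ?_
      rw [abs_mul, abs_mul, abs_of_nonneg hq0]
      have h5 : |t| * q ≤ c ^ 2 := by
        calc |t| * q ≤ 1 * c ^ 2 := mul_le_mul (ht.trans ht1a) hqc hq0 zero_le_one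
          _ = c ^ 2 := one_mul _
      exact mul_le_mul h5 ha (abs_nonneg _) (by positivity)
    have hW : 2 * K * (s * a') + K * (q * N') + K * (t * q * a') ≤ B1 := by
      have u1 := mul_le_mul_of_nonneg_left w1 (show 0 ≤ 2 * K by linarith)
      have u2 := mul_le_mul_of_nonneg_left w2 hK.le
      have u3 := mul_le_mul_of_nonneg_left w3 hK.le
      rw [hB1]; linarith
    have hW2 := mul_le_mul_of_nonneg_right hW (sq_nonneg t)
    rw [hPe] at h2
    have hid : (k0 - 2 * K * t * s - K * t ^ 2 * q) * (N' + t * a') =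
        k0 * N' + t * (k0 * a' - 2 * K * s * N')
          - (2 * K * (s * a') + K * (q * N') + K * (t * q * a')) * t ^ 2 := by ring
    rw [hid] at h2
    linarith [h2, hW2]
  clear_value B1 t1
  -- a norming functional of `A1 z`
  obtain ⟨e, he, he2⟩ := exists_dual_vector'' ℝ (A1 z)
  have he2' : e (A1 z) = M := by rw [he2]; rfl
  set L0 : ℝ := La + 2 * K * (r * c) * M with hL0
  have hL00 : 0 ≤ L0 := by positivity
  have hLb : ∀ z' ∈ C, ∀ e' : Y →L[ℝ] ℝ, ‖e'‖ ≤ 1 → ∀ D : Y →L[ℝ] Y, ‖D‖ ≤ 1 →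
      |k0 * e' (A (D z')) - 2 * K * inner ℝ v (τ D) * ‖A1 z'‖| ≤ L0 := by
    intro z' hz' e' he' D hD
    have ha := hAD z' hz' e' he' D hD
    have hs1 : |(inner ℝ v (τ D) : ℝ)| ≤ r * c := by
      refine (abs_real_inner_le_norm v (τ D)).trans ?_
      exact mul_le_mul hv.le (hτ D hD) (norm_nonneg _) hr.le
    refine (abs_sub _ _).trans ?_
    rw [abs_mul, abs_mul, abs_mul, abs_of_pos (show (0 : ℝ) < 2 * K by linarith), abs_norm,
      abs_of_pos (show (0 : ℝ) < k0 by linarith)]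
    have u1 : k0 * |e' (A (D z'))| ≤ La := by
      calc k0 * |e' (A (D z'))| ≤ 1 * La := mul_le_mul hk0b ha (abs_nonneg _) zero_le_one
        _ = La := one_mul _
    have u2 : 2 * K * |(inner ℝ v (τ D) : ℝ)| * ‖A1 z'‖ ≤ 2 * K * (r * c) * M :=
      mul_le_mul (mul_le_mul_of_nonneg_left hs1 (by linarith)) (hN z' hz') (norm_nonneg _)
        (by positivity)
    linarith
  clear_value L0
  set ε : ℝ := min (1 / (2 * B1)) (t1 / (L0 + 1)) with hε
  have hε0 : 0 < ε := lt_min (by positivity) (by positivity)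
  have hzero : ∀ D : Y →L[ℝ] Y, ‖D‖ ≤ 1 →
      k0 * e (A (D z)) = 2 * K * inner ℝ v (τ D) * M := by
    intro D hD
    have h1 := quad hB10 ht10 (hLb z hz e he D hD) (m := 0) (fun t ht => by
      have := core z hz e he he2 D hD t ht
      rw [← hMdef, sub_self, mul_zero] at this
      exact this)
    rw [← hε, ← hMdef] at h1
    have h2 : (k0 * e (A (D z)) - 2 * K * inner ℝ v (τ D) * M) ^ 2 ≤ 0 := by
      by_contra hcon
      push Not at hcon
      have : 0 < ε / 2 * (k0 * e (A (D z)) - 2 * K * inner ℝ v (τ D) * M) ^ 2 := by positivity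
      linarith
    have h3 : k0 * e (A (D z)) - 2 * K * inner ℝ v (τ D) * M = 0 := by
      have := le_antisymm h2 (sq_nonneg _)
      exact pow_eq_zero_iff (two_ne_zero) |>.1 this
    linarith
  have key : ∀ z' ∈ C, ∀ e' : Y →L[ℝ] ℝ, ‖e'‖ ≤ 1 → e' (A1 z') = ‖A1 z'‖ →
      ∀ D : Y →L[ℝ] Y, ‖D‖ ≤ 1 →
      (e' (A (D z')) - ‖A1 z'‖ / M * e (A (D z))) ^ 2 ≤ 4 / ε * (M - ‖A1 z'‖) := by
    intro z' hz' e' he' he'2 D hD
    have h1 := quad hB10 ht10 (hLb z' hz' e' he' D hD) (core z' hz' e' he' he'2 D hD)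
    rw [← hε] at h1
    have h2 := hzero D hD
    set N' : ℝ := ‖A1 z'‖ with hN'
    have h3 : k0 * e' (A (D z')) - 2 * K * inner ℝ v (τ D) * N'
        = k0 * (e' (A (D z')) - N' / M * e (A (D z))) := by
      have h4 : 2 * K * inner ℝ v (τ D) * N' = N' / M * (2 * K * inner ℝ v (τ D) * M) := by
        field_simp
      rw [h4, ← h2]; ring
    rw [h3] at h1
    set Λ : ℝ := e' (A (D z')) - N' / M * e (A (D z)) with hΛ
    have h5 : 0 ≤ M - N' := by linarith [hN z' hz']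
    have h6 : k0 * (ε / 2 * k0 * Λ ^ 2) ≤ k0 * (M - N') := by
      have : ε / 2 * (k0 * Λ) ^ 2 = k0 * (ε / 2 * k0 * Λ ^ 2) := by ring
      rwa [this] at h1
    have h7 : ε / 2 * k0 * Λ ^ 2 ≤ M - N' := le_of_mul_le_mul_left h6 (by linarith)
    have h8 : ε / 2 * (1 / 2) * Λ ^ 2 ≤ ε / 2 * k0 * Λ ^ 2 := by
      refine mul_le_mul_of_nonneg_right ?_ (sq_nonneg _)
      exact mul_le_mul_of_nonneg_left hk0a (by positivity)
    rw [div_mul_eq_mul_div, le_div_iff₀ hε0]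
    linarith
  clear_value ε
  -- the vector inequality
  set c1 : ℝ := Real.sqrt (4 / ε) with hc1
  have hc10 : 0 ≤ c1 := Real.sqrt_nonneg _
  have vec : ∀ z' ∈ C, 0 < ‖A1 z'‖ →
      ‖‖A1 z'‖ • z' - (‖A1 z'‖ / M * e (A1 z')) • z‖
        ≤ 3 / 2 * R * (c1 * Real.sqrt (M - ‖A1 z'‖)) := by
    intro z' hz' hpos
    obtain ⟨e', he', he'2⟩ := exists_dual_vector'' ℝ (A1 z')
    set N' : ℝ := ‖A1 z'‖ with hN'
    set w : Y := N' • z' - (N' / M * e (A1 z')) • z with hw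
    obtain ⟨ψ, hψ, hψ2⟩ := exists_dual_vector'' ℝ w
    set μ : ℝ := ‖z' + Dv z'‖ with hμ
    have hμ0 : 0 < μ := by
      rw [hμ, norm_pos_iff]
      intro h0
      rw [hA1, h0, map_zero, norm_zero] at hN'
      linarith
    have hμR : μ ≤ 3 / 2 * R := by
      have h1 : ‖Dv z'‖ ≤ 1 / 2 * ‖z'‖ := ContinuousLinearMap.le_of_opNorm_le _ hDv z'
      have h2 := norm_add_le z' (Dv z')
      have h3 := hR z' hz'
      linarith
    set u : Y := μ⁻¹ • (z' + Dv z') with hu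
    have hu1 : ‖u‖ = 1 := by
      rw [hu, norm_smul, norm_inv, Real.norm_eq_abs, abs_of_pos hμ0, ← hμ]
      exact inv_mul_cancel₀ hμ0.ne'
    set D : Y →L[ℝ] Y := ψ.smulRight u with hD
    have hD1 : ‖D‖ ≤ 1 := by
      rw [hD, ContinuousLinearMap.norm_smulRight_apply, hu1, mul_one]
      exact hψ
    have h1 := key z' hz' e' he' he'2 D hD1
    have hAu : A u = μ⁻¹ • A1 z' := by rw [hu, map_smul, hA1 z']
    have h2 : e' (A (D z')) = ψ z' * (μ⁻¹ * N') := by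
      rw [hD, ContinuousLinearMap.smulRight_apply, map_smul, hAu, map_smul, map_smul, he'2]
      rfl
    have h3 : e (A (D z)) = ψ z * (μ⁻¹ * e (A1 z')) := by
      rw [hD, ContinuousLinearMap.smulRight_apply, map_smul, hAu, map_smul, map_smul]
      rfl
    rw [h2, h3, ← hN'] at h1
    have h4 : ψ z' * (μ⁻¹ * N') - N' / M * (ψ z * (μ⁻¹ * e (A1 z'))) = μ⁻¹ * ψ w := by
      rw [hw, map_sub, map_smul, map_smul]
      simp only [smul_eq_mul]
      ring
    rw [h4, hψ2] at h1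
    have h5 : |μ⁻¹ * (‖w‖ : ℝ)| ≤ Real.sqrt (4 / ε * (M - N')) := Real.abs_le_sqrt (by
      simpa using h1)
    rw [Real.sqrt_mul (by positivity), abs_of_nonneg (by positivity), ← hc1] at h5
    have h6 : ‖w‖ = μ * (μ⁻¹ * ‖w‖) := by
      rw [← mul_assoc, mul_inv_cancel₀ hμ0.ne', one_mul]
    rw [h6]
    exact mul_le_mul hμR h5 (by positivity) (by positivity)
  clear_value c1
  -- constants
  set c2 : ℝ := 3 * R * c1 / M with hc2
  have hc20 : 0 ≤ c2 := by positivity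
  clear_value c2
  set c3 : ℝ := (Real.sqrt M + ‖A1‖ * c2) / M with hc3
  have hc30 : 0 ≤ c3 := by
    have := Real.sqrt_nonneg M
    positivity
  clear_value c3
  set c4 : ℝ := ‖A1‖ * (c2 + c3 * ‖z‖) with hc4
  have hc40 : 0 ≤ c4 := by positivity
  clear_value c4
  refine ⟨min (1 / (c4 ^ 2 + 1)) (1 / (8 * M)), lt_min (by positivity) (by positivity), ?_⟩
  intro z' hz'
  rw [← hA1 z', ← hA1 z, ← hMdef]
  set N' : ℝ := ‖A1 z'‖ with hN'
  have hN'M : N' ≤ M := hN z' hz'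
  have hN'0 : 0 ≤ N' := norm_nonneg _
  set κ : ℝ := min (1 / (c4 ^ 2 + 1)) (1 / (8 * M)) with hκ
  have hκ1 : κ ≤ 1 / (c4 ^ 2 + 1) := min_le_left _ _
  have hκ2 : κ ≤ 1 / (8 * M) := min_le_right _ _
  set m : ℝ := min ‖A1 z' - A1 z‖ ‖A1 z' + A1 z‖ with hm
  have hm0 : 0 ≤ m := le_min (norm_nonneg _) (norm_nonneg _)
  rcases lt_or_ge N' (M / 2) with hlt | hge
  · have h1 : m ≤ 2 * M := by
      have h2 : ‖A1 z' - A1 z‖ ≤ N' + M := norm_sub_le _ _
      have h3 : m ≤ ‖A1 z' - A1 z‖ := min_le_left _ _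
      linarith
    have h4 : m ^ 2 ≤ (2 * M) ^ 2 := pow_le_pow_left₀ hm0 h1 2
    have h5 : κ * m ^ 2 ≤ 1 / (8 * M) * (2 * M) ^ 2 :=
      mul_le_mul hκ2 h4 (sq_nonneg _) (by positivity)
    have h6 : 1 / (8 * M) * (2 * M) ^ 2 = M / 2 := by field_simp; ring
    linarith
  · have hN'pos : 0 < N' := by linarith
    have hv1 := vec z' hz' hN'pos
    rw [← hN'] at hv1
    set δ : ℝ := Real.sqrt (M - N') with hδ
    have hδ0 : 0 ≤ δ := Real.sqrt_nonneg _
    have hδ2 : δ ^ 2 = M - N' := Real.sq_sqrt (by linarith)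
    have hδM : δ ≤ Real.sqrt M := Real.sqrt_le_sqrt (by linarith)
    set α : ℝ := e (A1 z') / M with hα
    have hα1 : |α| ≤ 1 := by
      rw [hα, abs_div, abs_of_pos hM, div_le_one hM]
      have h1 := e.le_of_opNorm_le he (A1 z')
      rw [one_mul, Real.norm_eq_abs] at h1
      exact h1.trans hN'M
    have hweq : N' • z' - (N' / M * e (A1 z')) • z = N' • (z' - α • z) := by
      rw [smul_sub, smul_smul, hα]
      congr 2
      ring
    rw [hweq, norm_smul, Real.norm_eq_abs, abs_of_pos hN'pos] at hv1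
    have hb : ‖z' - α • z‖ ≤ c2 * δ := by
      have h1 : M / 2 * ‖z' - α • z‖ ≤ N' * ‖z' - α • z‖ :=
        mul_le_mul_of_nonneg_right hge (norm_nonneg _)
      have h2 : M / 2 * ‖z' - α • z‖ ≤ M / 2 * (c2 * δ) := by
        have h3 : M / 2 * (c2 * δ) = 3 / 2 * R * (c1 * δ) := by
          rw [hc2]; field_simp
        rw [h3]; exact h1.trans hv1
      exact le_of_mul_le_mul_left h2 (by positivity)
    have hα2 : 1 - |α| ≤ c3 * δ := by
      have h1 : N' ≤ |α| * M + ‖A1‖ * (c2 * δ) := by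
        have h2 : A1 z' = α • A1 z + A1 (z' - α • z) := by
          rw [map_sub, map_smul]; abel
        have h3 : N' ≤ ‖α • A1 z‖ + ‖A1 (z' - α • z)‖ := by
          rw [hN', h2]; exact norm_add_le _ _
        rw [norm_smul, Real.norm_eq_abs, ← hMdef] at h3
        have h4 : ‖A1 (z' - α • z)‖ ≤ ‖A1‖ * (c2 * δ) :=
          (A1.le_opNorm _).trans (mul_le_mul_of_nonneg_left hb (norm_nonneg _))
        linarith
      have h5 : M - N' ≤ Real.sqrt M * δ := by
        rw [← hδ2, sq]; exact mul_le_mul_of_nonneg_right hδM hδ0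
      have h6 : M * (1 - |α|) ≤ M * (c3 * δ) := by
        have h7 : M * (c3 * δ) = Real.sqrt M * δ + ‖A1‖ * (c2 * δ) := by
          rw [hc3]; field_simp
        rw [h7]
        linarith
      exact le_of_mul_le_mul_left h6 hM
    have hm1 : m ≤ c4 * δ := by
      rcases le_total 0 α with h0 | h0
      · rw [abs_of_nonneg h0] at hα2 hα1
        have h1 : ‖z' - z‖ ≤ (c2 + c3 * ‖z‖) * δ := by
          have h2 : z' - z = (z' - α • z) - (1 - α) • z := by
            rw [sub_smul, one_smul]; abel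
          have h3 : ‖z' - z‖ ≤ ‖z' - α • z‖ + ‖(1 - α) • z‖ := by
            rw [h2]; exact norm_sub_le _ _
          rw [norm_smul, Real.norm_eq_abs, abs_of_nonneg (by linarith)] at h3
          have h4 := mul_le_mul_of_nonneg_right hα2 (norm_nonneg z)
          linarith
        refine (min_le_left _ _).trans ?_
        rw [← map_sub, hc4, mul_assoc]
        exact (A1.le_opNorm _).trans (mul_le_mul_of_nonneg_left h1 (norm_nonneg _))
      · rw [abs_of_nonpos h0] at hα2 hα1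
        have h1 : ‖z' + z‖ ≤ (c2 + c3 * ‖z‖) * δ := by
          have h2 : z' + z = (z' - α • z) + (1 - -α) • z := by
            rw [sub_neg_eq_add, add_smul, one_smul]; abel
          have h3 : ‖z' + z‖ ≤ ‖z' - α • z‖ + ‖(1 - -α) • z‖ := by
            rw [h2]; exact norm_add_le _ _
          rw [norm_smul, Real.norm_eq_abs, abs_of_nonneg (by linarith)] at h3
          have h4 := mul_le_mul_of_nonneg_right hα2 (norm_nonneg z)
          linarith
        refine (min_le_right _ _).trans ?_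
        rw [← map_add, hc4, mul_assoc]
        exact (A1.le_opNorm _).trans (mul_le_mul_of_nonneg_left h1 (norm_nonneg _))
    have h1 : m ^ 2 ≤ (c4 * δ) ^ 2 := pow_le_pow_left₀ hm0 hm1 2
    have h2 : κ * m ^ 2 ≤ 1 / (c4 ^ 2 + 1) * (c4 * δ) ^ 2 :=
      mul_le_mul hκ1 h1 (sq_nonneg _) (by positivity)
    have h3 : 1 / (c4 ^ 2 + 1) * (c4 * δ) ^ 2 ≤ M - N' := by
      have h4 : 0 ≤ M - N' := by linarith
      rw [mul_pow c4 δ 2, hδ2, div_mul_eq_mul_div, div_le_iff₀ (by positivity), one_mul]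
      linarith [mul_comm (M - N') (c4 ^ 2 + 1)]
    linarith

end Pool.Agent.Helper59.PB

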