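import Pool.Agent.Helper76.PB.GoalsF
import Pool.Agent.Helper14.PP.BKUM
import Pool.Agent.Helper5.PP.BTRS
import Pool.Agent.Helper83.PP.BFRE
import Pool.Agent.Helper16.PP.PUPR

/-!
# Project B, packet X_DB
-/

set_option autoImplicit false

namespace Pool.Agent.Helper59.PB

open NumberField Polynomial Module IsDedekindDomain
open Pool.Agent.Helper51.RP Pool.Agent.Helper42.RD Pool.Agent.Helper42.PP
open Pool.Agent.Helper76.PB
open Pool.Agent.Helper38.RS (pz)
open Pool.Agent.Helper84.RS (summable_norm)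
open Pool.Agent.Helper40.RS (bel)
open Pool.Agent.Helper40.RD (bel_of_above valW)

section pz

variable {F : Type} [Field F] [NumberField F]

theorem pz_ind (A : Set (HeightOneSpectrum (𝓞 F))) (s : ℝ) :
    pz A s = ∑' w, A.indicator
      (fun w : HeightOneSpectrum (𝓞 F) => (Ideal.absNorm w.asIdeal : ℝ) ^ (-s)) w := by
  unfold pz
  exact tsum_subtype A (fun w : HeightOneSpectrum (𝓞 F) => (Ideal.absNorm w.asIdeal : ℝ) ^ (-s))

theorem pz_mono {A B : Set (HeightOneSpectrum (𝓞 F))} (h : A ⊆ B) (s : ℝ) (hs : 1 < s) :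
    pz A s ≤ pz B s := by
  rw [pz_ind, pz_ind]
  refine ((summable_norm F s hs).indicator A).tsum_le_tsum (fun w => ?_)
    ((summable_norm F s hs).indicator B)
  exact Set.indicator_le_indicator_of_subset h
    (fun w => Real.rpow_nonneg (Nat.cast_nonneg _) _) w

theorem pz_add {A B : Set (HeightOneSpectrum (𝓞 F))} (h : Disjoint A B) (s : ℝ) (hs : 1 < s) :
    pz (A ∪ B) s = pz A s + pz B s := by
  rw [pz_ind, pz_ind, pz_ind, ← ((summable_norm F s hs).indicator A).tsum_add
    ((summable_norm F s hs).indicator B), Set.indicator_union_of_disjoint h]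

theorem pz_fin {Z : Set (HeightOneSpectrum (𝓞 F))} (hZ : Z.Finite) (s : ℝ) (hs : 1 < s) :
    pz Z s ≤ hZ.toFinset.card := by
  classical
  rw [pz_ind, tsum_eq_sum (s := hZ.toFinset)]
  · calc ∑ w ∈ hZ.toFinset, Z.indicator
          (fun w : HeightOneSpectrum (𝓞 F) => (Ideal.absNorm w.asIdeal : ℝ) ^ (-s)) w
        ≤ ∑ _w ∈ hZ.toFinset, (1 : ℝ) := by
          refine Finset.sum_le_sum fun w _ => ?_
          rw [Set.indicator_apply]
          split_ifs
          · exact Real.rpow_le_one_of_one_le_of_nonpos (Pool.Agent.Helper14.PP.norm_one_le w)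
              (by linarith)
          · exact zero_le_one
      _ = hZ.toFinset.card := by simp
  · intro w hw
    rw [Set.indicator_of_notMem]
    intro h
    exact hw (hZ.mem_toFinset.2 h)

end pz

/-- An inequality `κ log(1/(s-1)) ≤ C` with `κ > 0` cannot hold for all `s`. -/
theorem no_bound (κ C : ℝ) (hκ : 0 < κ)
    (h : ∀ s : ℝ, 1 < s → s ≤ 2 → κ * Real.log (1 / (s - 1)) ≤ C) : False := by
  have hC : 0 ≤ max C 0 := le_max_right _ _
  set T : ℝ := (max C 0 + 1) / κ with hT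
  have hT0 : 0 < T := by positivity
  have h1 := h (1 + Real.exp (-T)) (by linarith [Real.exp_pos (-T)])
    (by linarith [Real.exp_le_one_iff.2 (by linarith : -T ≤ 0)])
  rw [add_sub_cancel_left, one_div, ← Real.exp_neg, neg_neg, Real.log_exp, hT,
    mul_div_cancel₀ _ hκ.ne'] at h1
  linarith [le_max_left C 0]

theorem x_db (h1 : Pool.Agent.Helper76.PB.X_DK) (h2 : Pool.Agent.Helper76.PB.X_KLB) :
    Pool.Agent.Helper76.PB.X_DB := by
  classical
  intro p hpF F E _ _ _ _ _ _ _ ε hε Z hZ hab hunr hpr f hf hne b hA hB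
  have hp : p.Prime := hpF.out
  by_contra hcon
  have hb0 : (b : F) ≠ 0 := b.ne_zero
  have hbF : ¬ ∃ y : F, y ^ p = (b : F) := by
    rintro ⟨y, hy⟩
    exact hcon ⟨algebraMap F E y, by rw [← map_pow, hy]⟩
  -- the upper bound
  obtain ⟨C₁, hC₁⟩ := h1 p F Z hZ hab hpr 1 (fun _ => f) (fun _ => hf) (by
    intro c hc
    obtain ⟨x, hx⟩ := hne
    have h := hc x
    rw [Fin.sum_univ_one] at h
    ext i
    rw [Fin.fin_one_eq_zero i]
    have := (mul_eq_zero.1 h).resolve_right hx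
    rw [this]
    rfl)
  -- the lower bound for A
  obtain ⟨C₂, hC₂⟩ := h2.2 p F ε b hε hb0 hbF
  set A : Set (HeightOneSpectrum (𝓞 F)) := {w | w ∉ Z ∧ LocPow p w (b : F)} with hAd
  set V : Set (HeightOneSpectrum (𝓞 F)) := SplZ E Z \ A with hVd
  have hAV : Disjoint A V := Set.disjoint_sdiff_right
  -- the lower bound for V
  have hval : ∀ w : HeightOneSpectrum (𝓞 E), w.valuation E (p : E) ≤ 1 := by
    intro w
    have h := w.valuation_le_one (K := E) (p : 𝓞 E)
    simpa using h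
  obtain ⟨hup1, -, hup3, -⟩ := Pool.Agent.Helper16.PP.p_upr p F E hZ.toFinset
  have hZp : {w : HeightOneSpectrum (𝓞 E) | w.valuation E (p : E) ≠ 1}.Finite := by
    refine hup1.subset ?_
    intro w hw
    exact hup3 (fun v hv => hZ.mem_toFinset.2 (hab hv)) w (lt_of_le_of_ne (hval w) hw)
  set g : HeightOneSpectrum (𝓞 E) → ℝ := fun w =>
    if w.valuation E (p : E) = 1 ∧ ¬ LocPow p w (algebraMap F E (b : F)) then 1 else 0 with hg
  have hg0 : ∀ w, 0 ≤ g w := by
    intro w
    rw [hg]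
    simp only
    split_ifs
    · exact zero_le_one
    · exact le_rfl
  have hg1 : ∀ w, g w ≤ 1 := by
    intro w
    rw [hg]
    simp only
    split_ifs
    · exact le_rfl
    · exact zero_le_one
  obtain ⟨C₃, hC₃⟩ := Pool.Agent.Helper14.PP.lower p (algebraMap F E ε) (algebraMap F E (b : F))
    (hε.map_of_injective (algebraMap F E).injective) ((map_ne_zero (algebraMap F E)).2 hb0) hcon
    hZp g (fun w hw1 hw2 => by
      rw [hg]
      exact if_pos ⟨hw1, hw2⟩) hg0 hg1
  obtain ⟨C₄, hC₄⟩ := (Pool.Agent.Helper5.PP.b_trs Pool.Agent.Helper83.PP.b_fre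
    Pool.Agent.Helper16.PP.p_upr) F E hZ.toFinset (fun v hv W hW x =>
      hunr v (fun h => hv (hZ.mem_toFinset.2 h)) W hW x)
  have hC₄' := hC₄ ∅ V g (fun w => ⟨hg0 w, (hg1 w).trans one_le_two⟩) (by
    intro W v hWv hWf hvS _ hvV
    rw [hg]
    refine if_neg ?_
    rintro ⟨-, hW⟩
    have hvZ : v ∉ Z := fun h => hvS (hZ.mem_toFinset.2 h)
    have hvB : v ∈ SplZ E Z := ⟨hvZ, W, hWv, hWf⟩
    have hvA : v ∈ A := by
      by_contra h
      exact hvV ⟨hvB, h⟩
    obtain ⟨y, hy⟩ := hvA.2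
    apply hW
    refine ⟨algebraMap F E y, ?_⟩
    rw [← map_pow, ← map_mul, ← map_one (algebraMap F E), ← map_sub, valW, bel_of_above hWv]
    refine pow_lt_one₀ zero_le hy ?_
    have := Ideal.IsDedekindDomain.ramificationIdx'_ne_zero_of_liesOver W.asIdeal
      (p := (bel F W).asIdeal) (bel F W).ne_bot
    rwa [bel_of_above hWv] at this)
  set d : ℝ := (finrank F E : ℝ) with hd
  have hd0 : 0 < d := by
    rw [hd]
    have : FiniteDimensional F E := Module.Finite.of_restrictScalars_finite ℚ F E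
    exact_mod_cast finrank_pos (R := F) (M := E)
  have hp2 : (2 : ℝ) ≤ p := by exact_mod_cast hp.two_le
  have hpp : 0 < 1 - 1 / (p : ℝ) := by
    have : 1 / (p : ℝ) ≤ 1 / 2 := one_div_le_one_div_of_le two_pos hp2
    linarith
  refine no_bound ((1 - 1 / (p : ℝ)) / (2 * d))
    (C₁ + C₂ + hZ.toFinset.card + (C₃ + C₄) / (2 * d)) (by positivity) ?_
  intro s hs1 hs2
  set L : ℝ := Real.log (1 / (s - 1)) with hL
  have e1 := hC₁ s hs1 hs2
  have e2 := hC₂ s hs1 hs2
  have e3 := hC₃ s hs1 hs2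
  have e4 := hC₄' s hs1 hs2
  rw [Finset.sum_empty, mul_zero, add_zero] at e4
  rw [pow_one] at e1
  -- pz (A ∪ V) ≤ pz (big)
  have f1 : pz A s + pz V s ≤ pz {w | w ∉ Z ∧ ∀ _i : Fin 1, Van Z f w} s := by
    rw [← pz_add hAV s hs1]
    refine pz_mono ?_ s hs1
    rintro w (hw | hw)
    · exact ⟨hw.1, fun _ => hA w hw.1 hw.2⟩
    · exact ⟨hw.1.1, fun _ => hB w hw.1⟩
  -- pz of the Kummer set
  have f2 : pz {v : HeightOneSpectrum (𝓞 F) | v.valuation F (p : F) = 1 ∧ LocPow p v (b : F)} s ≤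
      pz A s + hZ.toFinset.card := by
    have h3 : {v : HeightOneSpectrum (𝓞 F) | v.valuation F (p : F) = 1 ∧ LocPow p v (b : F)} ⊆
        A ∪ Z := by
      intro w hw
      by_cases hwZ : w ∈ Z
      · exact Or.inr hwZ
      · exact Or.inl ⟨hwZ, hw.2⟩
    refine (pz_mono h3 s hs1).trans ?_
    rw [pz_add _ s hs1]
    · have := pz_fin hZ s hs1
      linarith
    · rw [Set.disjoint_left]
      intro w hw hw'
      exact hw.1 hw'
  have f3 : (1 - 1 / (p : ℝ)) * L - C₃ ≤ 2 * d * pz V s + C₄ := e3.trans e4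
  have f4 : (1 - 1 / (p : ℝ)) / (2 * d) * L ≤ pz V s + (C₃ + C₄) / (2 * d) := by
    rw [div_mul_eq_mul_div, ← sub_le_iff_le_add, ← sub_div, div_le_iff₀ (by positivity)]
    linarith
  linarith

end Pool.Agent.Helper59.PB
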